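import Mathlib

/-!
# Parts of a convex body from a covering by translates of its interior (helper54)

If `F` is covered by the translates `t + int F`, `t ∈ T`, then `F` is the union of at most `|T|`
nonempty parts, each of which lies deep inside a translate of `F`. Such a part has a smaller diameter
than `F` for every norm and a smaller width than `F` in every direction.
-/

set_option autoImplicit false

open Set Metric

namespace Pool.Agent.H54.TW

variable {d : ℕ}

theorem parts {F : Set (EuclideanSpace ℝ (Fin d))} (hFc : IsCompact F)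
    (T : Finset (EuclideanSpace ℝ (Fin d)))
    (hT : F ⊆ ⋃ t ∈ T, (fun x => t + x) '' interior F) :
    ∃ (k : ℕ) (A : Fin k → Set (EuclideanSpace ℝ (Fin d))) (δ : ℝ), k ≤ T.card ∧ 0 < δ ∧
      (⋃ i, A i) = F ∧ ∀ i, (A i).Nonempty ∧ ∃ t : EuclideanSpace ℝ (Fin d), ∀ x ∈ A i,
        ∀ v : EuclideanSpace ℝ (Fin d), ‖v‖ ≤ δ → x - t + v ∈ F := by
  classical
  have hop : ∀ t : T, IsOpen ((fun x => (t : EuclideanSpace ℝ (Fin d)) + x) '' interior F) :=
    fun t => (Homeomorph.addLeft (t : EuclideanSpace ℝ (Fin d))).isOpenMap _ isOpen_interior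
  have hcov : F ⊆ ⋃ t : T, (fun x => (t : EuclideanSpace ℝ (Fin d)) + x) '' interior F := by
    intro v hv
    have h := hT hv
    simp only [Set.mem_iUnion] at h ⊢
    obtain ⟨t, ht, h⟩ := h
    exact ⟨⟨t, ht⟩, h⟩
  obtain ⟨δ, hδ, hleb⟩ := lebesgue_number_lemma_of_metric hFc hop hcov
  let B : EuclideanSpace ℝ (Fin d) → Set (EuclideanSpace ℝ (Fin d)) := fun t =>
    {x | x ∈ F ∧ ball x δ ⊆ (fun x => t + x) '' interior F}
  let T' := T.filter (fun t => (B t).Nonempty)
  let e := T'.equivFin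
  refine ⟨T'.card, fun i => B (e.symm i), δ / 2, Finset.card_filter_le _ _, by positivity, ?_, ?_⟩
  · ext x
    simp only [Set.mem_iUnion]
    constructor
    · rintro ⟨i, hi⟩
      exact hi.1
    · intro hx
      obtain ⟨t, ht⟩ := hleb x hx
      have h1 : x ∈ B t := ⟨hx, ht⟩
      have h2 : (t : EuclideanSpace ℝ (Fin d)) ∈ T' := Finset.mem_filter.2 ⟨t.2, ⟨x, h1⟩⟩
      refine ⟨e ⟨t, h2⟩, ?_⟩
      rw [Equiv.symm_apply_apply]
      exact h1
  · intro i
    refine ⟨(Finset.mem_filter.1 (e.symm i).2).2, (e.symm i : EuclideanSpace ℝ (Fin d)), ?_⟩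
    intro x hx v hv
    have h1 : x + v ∈ ball x δ := by
      rw [mem_ball, dist_eq_norm, add_sub_cancel_left]
      linarith
    obtain ⟨y, hy, h2⟩ := hx.2 h1
    have h3 : x - (e.symm i : EuclideanSpace ℝ (Fin d)) + v = y := by
      have h4 : (e.symm i : EuclideanSpace ℝ (Fin d)) + y = x + v := h2
      rw [sub_add_eq_add_sub, ← h4, add_sub_cancel_left]
    rw [h3]
    exact interior_subset hy

theorem zero_mem_interior {G : Set (EuclideanSpace ℝ (Fin d))} (hG : Convex ℝ G)
    (hGi : (interior G).Nonempty) (hGs : ∀ x ∈ G, -x ∈ G) : (0 : EuclideanSpace ℝ (Fin d)) ∈ interior G := by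
  obtain ⟨x, hx⟩ := hGi
  have h1 : -x ∈ interior G := by
    have h2 : IsOpen (Neg.neg '' interior G) := (Homeomorph.neg _).isOpenMap _ isOpen_interior
    have h3 : Neg.neg '' interior G ⊆ G := by
      rintro _ ⟨y, hy, rfl⟩
      exact hGs y (interior_subset hy)
    exact interior_maximal h3 h2 ⟨x, hx, rfl⟩
  have h2 := hG.interior hx h1 (a := 1 / 2) (b := 1 / 2) (by norm_num) (by norm_num) (by norm_num)
  have h3 : (1 / 2 : ℝ) • x + (1 / 2 : ℝ) • -x = 0 := by rw [smul_neg, add_neg_cancel]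
  rwa [h3] at h2

/-- the diameter of `X` for the norm with unit ball `G` -/
noncomputable def gdiam (G X : Set (EuclideanSpace ℝ (Fin d))) : ℝ :=
  sSup ((fun p : EuclideanSpace ℝ (Fin d) × EuclideanSpace ℝ (Fin d) => gauge G (p.1 - p.2)) ''
    (X ×ˢ X))

theorem gdiam_parts {F G : Set (EuclideanSpace ℝ (Fin d))} (hd : 1 ≤ d) (hG : Convex ℝ G)
    (hGc : IsCompact G) (hGi : (interior G).Nonempty) (hGs : ∀ x ∈ G, -x ∈ G) (hFc : IsCompact F)
    (hFi : (interior F).Nonempty) {A : Set (EuclideanSpace ℝ (Fin d))} (hA : A.Nonempty)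
    (hAF : A ⊆ F) {δ : ℝ} (hδ : 0 < δ) {t : EuclideanSpace ℝ (Fin d)}
    (h : ∀ x ∈ A, ∀ v : EuclideanSpace ℝ (Fin d), ‖v‖ ≤ δ → x - t + v ∈ F) :
    gdiam G A < gdiam G F := by
  have h0 := zero_mem_interior hG hGi hGs
  have hG0 : G ∈ nhds (0 : EuclideanSpace ℝ (Fin d)) := mem_interior_iff_mem_nhds.1 h0
  have hcont : Continuous (gauge G) := continuous_gauge hG hG0
  have hbdd : BddAbove ((fun p : EuclideanSpace ℝ (Fin d) × EuclideanSpace ℝ (Fin d) =>
      gauge G (p.1 - p.2)) '' (F ×ˢ F)) :=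
    ((hFc.prod hFc).image (hcont.comp (continuous_fst.sub continuous_snd))).bddAbove
  have hle : ∀ x ∈ F, ∀ y ∈ F, gauge G (x - y) ≤ gdiam G F := fun x hx y hy =>
    le_csSup hbdd ⟨(x, y), ⟨hx, hy⟩, rfl⟩
  obtain ⟨R, hR⟩ := hFc.isBounded.exists_norm_le
  have hR' : ∀ x ∈ F, ∀ y ∈ F, ‖x - y‖ ≤ 2 * max R 1 := by
    intro x hx y hy
    have h1 := hR x hx
    have h2 := hR y hy
    have h3 := norm_sub_le x y
    have h4 := le_max_left R 1
    linarith
  set M := 2 * max R 1 with hM
  have hM0 : 0 < M := by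
    have := le_max_right R 1
    positivity
  -- the diameter is positive
  have hD : 0 < gdiam G F := by
    obtain ⟨x, hx⟩ := hFi
    obtain ⟨ε, hε, hb⟩ := Metric.isOpen_iff.1 isOpen_interior x hx
    have : Nontrivial (EuclideanSpace ℝ (Fin d)) := by
      have : Nonempty (Fin d) := ⟨⟨0, by omega⟩⟩
      infer_instance
    obtain ⟨w, hw⟩ := exists_norm_eq (EuclideanSpace ℝ (Fin d)) (c := ε / 2) (by positivity)
    have h1 : x + w ∈ F := by
      apply interior_subset
      apply hb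
      rw [mem_ball, dist_eq_norm, add_sub_cancel_left, hw]
      linarith
    have h2 := hle (x + w) h1 x (interior_subset hx)
    rw [add_sub_cancel_left] at h2
    have h3 : 0 < gauge G w := by
      rw [gauge_pos (absorbent_nhds_zero hG0) (NormedSpace.isVonNBounded_of_isBounded ℝ hGc.isBounded)]
      intro h4
      rw [h4, norm_zero] at hw
      linarith
    linarith
  have hq : 0 < 1 + 2 * δ / M := by positivity
  have key : ∀ x ∈ A, ∀ y ∈ A, gauge G (x - y) ≤ gdiam G F / (1 + 2 * δ / M) := by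
    intro x hx y hy
    by_cases hxy : x = y
    · rw [hxy, sub_self, gauge_zero]
      positivity
    · have hn : 0 < ‖x - y‖ := norm_pos_iff.2 (sub_ne_zero.2 hxy)
      have h1 : ‖(δ / ‖x - y‖) • (x - y)‖ ≤ δ := by
        rw [norm_smul, Real.norm_eq_abs, abs_of_pos (by positivity), div_mul_cancel₀ _ hn.ne']
      have h2 := h x hx _ h1
      have h3 := h y hy (-((δ / ‖x - y‖) • (x - y))) (by rw [norm_neg]; exact h1)
      have h4 := hle _ h2 _ h3
      have h5 : (x - t + (δ / ‖x - y‖) • (x - y)) - (y - t + -((δ / ‖x - y‖) • (x - y))) =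
          (1 + 2 * δ / ‖x - y‖) • (x - y) := by
        rw [add_smul, one_smul, mul_div_assoc, mul_smul, two_smul]
        abel
      rw [h5, gauge_smul_of_nonneg (by positivity)] at h4
      have h6 : 2 * δ / M ≤ 2 * δ / ‖x - y‖ :=
        div_le_div_of_nonneg_left (by positivity) hn (hR' x (hAF hx) y (hAF hy))
      rw [le_div_iff₀ hq]
      have h7 := gauge_nonneg (s := G) (x - y)
      have h8 : (1 + 2 * δ / ‖x - y‖) * gauge G (x - y) ≤ gdiam G F := by simpa using h4
      nlinarith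
  have h9 : gdiam G A ≤ gdiam G F / (1 + 2 * δ / M) := by
    obtain ⟨a, ha⟩ := hA
    refine csSup_le ⟨_, ⟨(a, a), ⟨ha, ha⟩, rfl⟩⟩ ?_
    rintro _ ⟨⟨x, y⟩, ⟨hx, hy⟩, rfl⟩
    exact key x hx y hy
  refine lt_of_le_of_lt h9 ?_
  rw [div_lt_iff₀ hq]
  have : 0 < gdiam G F * (2 * δ / M) := by positivity
  nlinarith

/-- the width of `X` in the direction `u` -/
noncomputable def wid (X : Set (EuclideanSpace ℝ (Fin d))) (u : EuclideanSpace ℝ (Fin d)) : ℝ :=
  sSup ((fun x => inner ℝ x u) '' X) - sInf ((fun x => inner ℝ x u) '' X)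

theorem wid_parts {F : Set (EuclideanSpace ℝ (Fin d))} (hFc : IsCompact F)
    {A : Set (EuclideanSpace ℝ (Fin d))} (hA : A.Nonempty) {δ : ℝ} (hδ : 0 < δ)
    {t : EuclideanSpace ℝ (Fin d)}
    (h : ∀ x ∈ A, ∀ v : EuclideanSpace ℝ (Fin d), ‖v‖ ≤ δ → x - t + v ∈ F)
    {u : EuclideanSpace ℝ (Fin d)} (hu : ‖u‖ = 1) : wid A u < wid F u := by
  have hc : Continuous (fun x : EuclideanSpace ℝ (Fin d) => inner ℝ x u) := by fun_prop
  have hb := (hFc.image hc).bddAbove
  have hb' := (hFc.image hc).bddBelow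
  have huu : (inner ℝ u u : ℝ) = 1 := by rw [real_inner_self_eq_norm_sq, hu]; norm_num
  have h1 : sSup ((fun x => inner ℝ x u) '' A) ≤
      sSup ((fun x => inner ℝ x u) '' F) - δ + inner ℝ t u := by
    refine csSup_le (hA.image _) ?_
    rintro _ ⟨x, hx, rfl⟩
    have h2 := h x hx (δ • u) (by rw [norm_smul, hu, Real.norm_eq_abs, abs_of_pos hδ, mul_one])
    have h3 := le_csSup hb ⟨_, h2, rfl⟩
    simp only [inner_add_left, inner_sub_left, inner_smul_left, huu] at h3
    simp only [conj_trivial, mul_one] at h3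
    show inner ℝ x u ≤ _
    linarith
  have h4 : sInf ((fun x => inner ℝ x u) '' F) + δ + inner ℝ t u ≤
      sInf ((fun x => inner ℝ x u) '' A) := by
    refine le_csInf (hA.image _) ?_
    rintro _ ⟨x, hx, rfl⟩
    have h2 := h x hx (-(δ • u))
      (by rw [norm_neg, norm_smul, hu, Real.norm_eq_abs, abs_of_pos hδ, mul_one])
    have h3 := csInf_le hb' ⟨_, h2, rfl⟩
    simp only [inner_add_left, inner_sub_left, inner_neg_left, inner_smul_left, huu] at h3
    simp only [conj_trivial, mul_one] at h3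
    show _ ≤ inner ℝ x u
    linarith
  unfold wid
  linarith

end Pool.Agent.H54.TW
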